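import Pool.Agent.Y498.SU.Main
import Pool.Agent.Y498.SU.Golden

/-!
# MP_d23f22_an: integrability at `λ = 1` and no invariant circles for any other `|λ| > 1/2`

For the potentials `V_d(x) = -(2/π) arg(1 + d e^{2πix})`, `0 < d < 1`, the map `F_{V_d,1}` has
analytic invariant circles of all non-integer rotation numbers; and for every `η > 0` and all `d`
close to `1` the map `F_{V_d,λ}` has no invariant circle for any `λ` with `|λ| ≥ 1/2 + η` and
`|λ - 1| ≥ η`. The definitions are in `Pool/Agent/H782R2/SDefs.lean`.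
-/

set_option autoImplicit false

open Set Real

namespace Pool.Agent.Results.MP_d23f22_an.IsolatedCircles

open Pool.Agent.H782R2.Std

/-- The potentials `V d`, `0 < d < 1`, are real-analytic of mean zero and pairwise different, and
`F_{V d,1}` has an analytic invariant circle of rotation number `ρ` for every non-integer `ρ`. -/
def GoodFamily (V : ℝ → UnitAddCircle → ℝ) : Prop :=
  Function.Injective V ∧ ∀ d : ℝ, 0 < d → d < 1 →
    IsAnalytic (V d) ∧ (∫ x in (0:ℝ)..1, V d (x : UnitAddCircle) = 0) ∧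
    ∀ ρ : ℝ, (∀ k : ℤ, ρ ≠ k) → ∃ C, IsInvCircle (V d) 1 C ∧ IsAnalyticGraph C ∧ HasRotNum (V d) 1 C ρ

/-- There is an explicit family `V d`, `0 < d < 1`, of pairwise different real-analytic potentials
of mean zero such that `F_{V d,1}` has analytic invariant circles of all non-integer rotation
numbers and, for every `η > 0` and all `d < 1` close enough to `1`, `F_{V d,λ}` has no invariant
circle at all for every `λ` with `|λ| ≥ 1/2 + η` and `|λ - 1| ≥ η`. In particular, for `d` close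
to `1`, no positive Diophantine number (for instance the golden mean) has a threshold. -/
theorem result : ∃ V : ℝ → UnitAddCircle → ℝ,
    (∀ d x : ℝ, V d (x : UnitAddCircle) =
      -(2 / π) * arctan (d * sin (2 * π * x) / (1 + d * cos (2 * π * x)))) ∧
    GoodFamily V ∧
    (∀ η : ℝ, 0 < η → ∃ d₁ : ℝ, 0 < d₁ ∧ d₁ < 1 ∧ ∀ d, d₁ ≤ d → d < 1 →
      ∀ lam : ℝ, 1 / 2 + η ≤ |lam| → η ≤ |lam - 1| → ∀ C : Set Cyl, ¬ IsInvCircle (V d) lam C) ∧
    IsDiophantine ((√5 - 1) / 2) ∧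
    ∃ d₁ : ℝ, 0 < d₁ ∧ d₁ < 1 ∧ ∀ d, d₁ ≤ d → d < 1 →
      ∀ ρ : ℝ, IsDiophantine ρ → 0 < ρ → ∀ Λ : ENNReal, ¬ IsThreshold (V d) ρ Λ := by
  refine ⟨VV, fun d x => rfl, ⟨fun d d' h => Pool.Agent.Y498.SU.VV_inj h, fun d h0 h1 =>
    ⟨VV_analytic h0 h1, mean_zero d, fun ρ hρ => all_circles h0 h1 hρ⟩⟩,
    Pool.Agent.Y498.SU.main, Pool.Agent.Y498.SU.golden_dioph, ?_⟩
  obtain ⟨d₁, h0, h1, h2⟩ := Pool.Agent.Y498.SU.main (1 / 4) (by norm_num)
  refine ⟨d₁, h0, h1, fun d hd hd1 ρ hρ hρ0 Λ hΛ => ?_⟩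
  obtain ⟨C, h3, -, h4⟩ := all_circles (h0.trans_le hd) hd1
    (Pool.Agent.Y498.SU.dioph_ne_int hρ hρ0)
  have hle : ENNReal.ofReal |(1 : ℝ)| ≤ Λ := by
    by_contra hlt
    push Not at hlt
    exact hΛ.1 1 hlt ⟨C, h3, h4⟩
  have hlt : ENNReal.ofReal |(3 / 4 : ℝ)| < Λ := by
    refine lt_of_lt_of_le ?_ hle
    rw [ENNReal.ofReal_lt_ofReal_iff (by norm_num)]
    norm_num [abs_of_pos]
  obtain ⟨C', h1', -⟩ := hΛ.2 (3 / 4) hlt
  refine h2 d hd hd1 (3 / 4) ?_ ?_ C' h1'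
  · rw [abs_of_pos (by norm_num)]; norm_num
  · rw [abs_of_neg (by norm_num)]; norm_num

end Pool.Agent.Results.MP_d23f22_an.IsolatedCircles
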